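import Pool.Agent.Helper92.LV.Stmts

open Filter Topology NumberField

namespace Pool.Agent.Helper92.LV

open Pool.Agent.Helper42.LS Pool.Agent.Helper42.LK Pool.Agent.Helper54.LS

theorem div_mono {c c' : ℝ} {f : ℕ → ℝ} (h : QC c f) (hc : c ≤ c') : QC c' f where
  nonneg := h.nonneg
  add := fun k l hk hl => by have := h.add k l hk hl; linarith
  sub := fun k l hl hk => by have := h.sub k l hl hk; linarith

/-- the count estimate -/
theorem div_cnt (M : ℕ) (z : ℝ) (hz : 0 ≤ z) (hzM : z ≤ M) (P : ℕ → Prop) [DecidablePred P]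
    (h1 : ∀ i : ℕ, 1 ≤ i → (i : ℝ) ≤ z → P i) (h2 : ∀ i : ℕ, 1 ≤ i → P i → (i : ℝ) - 1 ≤ z) :
    |(((Finset.Icc 1 M).filter P).card : ℝ) - z| ≤ 1 := by
  have hf := Nat.floor_le hz
  have hf' := Nat.lt_floor_add_one z
  have hlow : ⌊z⌋₊ ≤ ((Finset.Icc 1 M).filter P).card := by
    have hsub : Finset.Icc 1 ⌊z⌋₊ ⊆ (Finset.Icc 1 M).filter P := by
      intro i hi
      rw [Finset.mem_Icc] at hi
      rw [Finset.mem_filter, Finset.mem_Icc]
      have hiz : (i : ℝ) ≤ z := le_trans (by exact_mod_cast hi.2) hf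
      refine ⟨⟨hi.1, ?_⟩, h1 i hi.1 hiz⟩
      exact_mod_cast hiz.trans hzM
    have := Finset.card_le_card hsub
    simpa using this
  have hup : ((Finset.Icc 1 M).filter P).card ≤ ⌊z⌋₊ + 1 := by
    have hsub : (Finset.Icc 1 M).filter P ⊆ Finset.Icc 1 (⌊z⌋₊ + 1) := by
      intro i hi
      rw [Finset.mem_filter, Finset.mem_Icc] at hi
      rw [Finset.mem_Icc]
      refine ⟨hi.1.1, ?_⟩
      have h3 := h2 i hi.1.1 hi.2
      have h4 : (i : ℝ) < (⌊z⌋₊ + 1 + 1 : ℕ) := by push_cast; linarith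
      have h5 : i < ⌊z⌋₊ + 1 + 1 := by exact_mod_cast h4
      omega
    have := Finset.card_le_card hsub
    simpa using this
  have hlow' : (⌊z⌋₊ : ℝ) ≤ (((Finset.Icc 1 M).filter P).card : ℝ) := by exact_mod_cast hlow
  have hup' : (((Finset.Icc 1 M).filter P).card : ℝ) ≤ (⌊z⌋₊ : ℝ) + 1 := by exact_mod_cast hup
  rw [abs_le]
  constructor <;> linarith

theorem div_pos (h1 : ST_DIV1) (c : ℝ) (f b : ℕ → ℝ) (J : ℕ) (hc : 0 < c) (hf : QC c f)
    (hJ : 1 ≤ J) (hb : DC J b) :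
    -(2 * ((Nat.log 2 J : ℝ) + 1) ^ 2 * c * ∑ k ∈ Finset.Icc 1 J, |b k|) ≤
      ∑ k ∈ Finset.Icc 1 J, b k * f k := by
  set mu : ℝ := 2 * ((Nat.log 2 J : ℝ) + 1) ^ 2 * c with hmu
  have hmu0 : 0 < mu := by positivity
  have hd : ∀ i : ℕ, ∃ d : ℕ, 1 ≤ d ∧ (∀ k : ℕ, 1 ≤ k → k ≤ J → (i : ℝ) * mu ≤ f k → d ∣ k) ∧
    (∀ k : ℕ, 1 ≤ k → k ≤ J → d ∣ k → (i : ℝ) * mu - mu ≤ f k) :=
    fun i => h1 c f J hc.le hf hJ ((i : ℝ) * mu)
  choose d hd1 hd2 hd3 using hd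
  obtain ⟨M, hM⟩ : ∃ M : ℕ, ∀ k ∈ Finset.Icc 1 J, f k ≤ M * mu := by
    obtain ⟨M, hM⟩ := exists_nat_ge ((∑ k ∈ Finset.Icc 1 J, f k) / mu)
    refine ⟨M, fun k hk => ?_⟩
    have h3 : f k ≤ ∑ k ∈ Finset.Icc 1 J, f k :=
      Finset.single_le_sum (fun i hi => hf.nonneg i (Finset.mem_Icc.1 hi).1) hk
    rw [div_le_iff₀ hmu0] at hM
    linarith
  set g : ℕ → ℝ := fun k => mu * (((Finset.Icc 1 M).filter (fun i => d i ∣ k)).card : ℝ) with hg
  have hfg : ∀ k ∈ Finset.Icc 1 J, |g k - f k| ≤ mu := by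
    intro k hk
    have hk' := Finset.mem_Icc.1 hk
    have hz := hf.nonneg k hk'.1
    have := div_cnt M (f k / mu) (by positivity) (by rw [div_le_iff₀ hmu0]; exact hM k hk)
      (fun i => d i ∣ k) (fun i _ hi => hd2 i k hk'.1 hk'.2 (by rwa [le_div_iff₀ hmu0] at hi))
      (fun i _ hi => by
        have := hd3 i k hk'.1 hk'.2 hi
        rw [le_div_iff₀ hmu0]; linarith)
    have e : g k - f k =
        mu * ((((Finset.Icc 1 M).filter (fun i => d i ∣ k)).card : ℝ) - f k / mu) := by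
      rw [hg]; field_simp
    rw [e, abs_mul, abs_of_pos hmu0]
    calc mu * _ ≤ mu * 1 := mul_le_mul_of_nonneg_left this hmu0.le
      _ = mu := mul_one _
  have hbg : 0 ≤ ∑ k ∈ Finset.Icc 1 J, b k * g k := by
    have e : ∑ k ∈ Finset.Icc 1 J, b k * g k =
        mu * ∑ i ∈ Finset.Icc 1 M, ∑ k ∈ (Finset.Icc 1 J).filter (fun k => d i ∣ k), b k := by
      simp only [Finset.sum_filter, hg]
      rw [Finset.sum_comm, Finset.mul_sum]
      refine Finset.sum_congr rfl fun k _ => ?_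
      rw [Finset.card_filter]
      push_cast
      rw [mul_left_comm, Finset.mul_sum]
      congr 1
      refine Finset.sum_congr rfl fun i _ => ?_
      split_ifs <;> simp
    rw [e]
    exact mul_nonneg hmu0.le (Finset.sum_nonneg fun i _ => hb (d i) (hd1 i))
  have e2 : ∑ k ∈ Finset.Icc 1 J, b k * f k =
      ∑ k ∈ Finset.Icc 1 J, b k * g k + ∑ k ∈ Finset.Icc 1 J, b k * (f k - g k) := by
    rw [← Finset.sum_add_distrib]
    exact Finset.sum_congr rfl fun k _ => by ring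
  have e3 : -(mu * ∑ k ∈ Finset.Icc 1 J, |b k|) ≤ ∑ k ∈ Finset.Icc 1 J, b k * (f k - g k) := by
    rw [Finset.mul_sum, ← Finset.sum_neg_distrib]
    refine Finset.sum_le_sum fun k hk => ?_
    have h4 := hfg k hk
    rw [abs_sub_comm] at h4
    have h5 : |b k * (f k - g k)| ≤ mu * |b k| := by
      rw [abs_mul, mul_comm]
      exact mul_le_mul_of_nonneg_right h4 (abs_nonneg _)
    exact (abs_le.1 h5).1
  rw [e2]
  linarith

theorem st_DIV (h1 : ST_DIV1) : ST_DIV := by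
  have hl2 : 0 < Real.log 2 := Real.log_pos (by norm_num)
  have hl2' : Real.log 2 ≤ 1 := by have := Real.log_two_lt_d9; linarith
  refine ⟨2 / (Real.log 2) ^ 2, by positivity, ?_⟩
  have main : ∀ (c : ℝ) (f b : ℕ → ℝ) (J : ℕ), 0 < c → QC c f → 1 ≤ J →
      DC J b → -(2 / (Real.log 2) ^ 2 * c * (1 + Real.log J) ^ 2 *
        ∑ k ∈ Finset.Icc 1 J, |b k|) ≤ ∑ k ∈ Finset.Icc 1 J, b k * f k := by
    intro c f b J hc hf hJ hb
    refine le_trans (neg_le_neg ?_) (div_pos h1 c f b J hc hf hJ hb)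
    have hS : 0 ≤ ∑ k ∈ Finset.Icc 1 J, |b k| := Finset.sum_nonneg fun k _ => abs_nonneg _
    refine mul_le_mul_of_nonneg_right ?_ hS
    have hJ0 : (0 : ℝ) < J := by exact_mod_cast hJ
    have h3 : (Nat.log 2 J : ℝ) * Real.log 2 ≤ Real.log J := by
      have h4 : ((2 : ℝ) ^ (Nat.log 2 J)) ≤ J := by
        exact_mod_cast Nat.pow_log_le_self 2 (by omega)
      have h5 := Real.log_le_log (by positivity) h4
      rwa [Real.log_pow] at h5
    have h6 : ((Nat.log 2 J : ℝ) + 1) ≤ (1 + Real.log J) / Real.log 2 := by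
      rw [le_div_iff₀ hl2]
      linarith
    have h7 : ((Nat.log 2 J : ℝ) + 1) ^ 2 ≤ ((1 + Real.log J) / Real.log 2) ^ 2 :=
      pow_le_pow_left₀ (by positivity) h6 2
    rw [div_pow] at h7
    calc 2 * ((Nat.log 2 J : ℝ) + 1) ^ 2 * c
        ≤ 2 * ((1 + Real.log J) ^ 2 / Real.log 2 ^ 2) * c := by gcongr
      _ = _ := by ring
  intro c f b J hc hf hJ hb
  have hK : 0 ≤ 2 / (Real.log 2) ^ 2 * (1 + Real.log J) ^ 2 *
      ∑ k ∈ Finset.Icc 1 J, |b k| := by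
    have hS : 0 ≤ ∑ k ∈ Finset.Icc 1 J, |b k| := Finset.sum_nonneg fun k _ => abs_nonneg _
    positivity
  set K := 2 / (Real.log 2) ^ 2 * (1 + Real.log J) ^ 2 * ∑ k ∈ Finset.Icc 1 J, |b k| with hKd
  refine le_of_forall_pos_le_add fun ε hε => ?_
  have hK1 : 0 < K + 1 := by linarith
  have h2 := main (c + ε / (K + 1)) f b J (by positivity)
    (div_mono hf (le_add_of_nonneg_right (by positivity))) hJ hb
  have e : 2 / Real.log 2 ^ 2 * (c + ε / (K + 1)) * (1 + Real.log J) ^ 2 *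
      ∑ k ∈ Finset.Icc 1 J, |b k| = c * K + ε * (K / (K + 1)) := by
    rw [hKd]; ring
  have e' : 2 / Real.log 2 ^ 2 * c * (1 + Real.log J) ^ 2 *
      ∑ k ∈ Finset.Icc 1 J, |b k| = c * K := by
    rw [hKd]; ring
  rw [e] at h2
  rw [e']
  have h3 : K / (K + 1) ≤ 1 := by rw [div_le_one hK1]; linarith
  have h4 : ε * (K / (K + 1)) ≤ ε * 1 := mul_le_mul_of_nonneg_left h3 hε.le
  linarith

end Pool.Agent.Helper92.LV
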